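import Pool.Agent.H20.MT.Stmts

/-! Project MTA: sum over configurations to product of one-variable sums. -/

set_option autoImplicit false

namespace MTA
open Finset

private theorem bsum_dvd_rr {P : Finset ℕ} {n : ℕ} (hP : ∀ p ∈ P, p.Prime) (B : Cfg P n)
    (i : Fin (n + 1)) (p : ↥P) : (p : ℕ) ∣ rr B i ↔ B p = some i := by
  constructor
  · intro h
    unfold rr at h
    rw [Prime.dvd_finsetProd_iff (Nat.Prime.prime (hP p p.2))] at h
    obtain ⟨q, _, hq⟩ := h
    split_ifs at hq with h1
    · have h2 : (p : ℕ) = q := (Nat.prime_dvd_prime_iff_eq (hP p p.2) (hP q q.2)).1 hq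
      have h3 : p = q := Subtype.ext h2
      rw [h3]; exact h1
    · exact absurd (Nat.dvd_one.1 hq) (hP p p.2).one_lt.ne'
  · intro h
    unfold rr
    refine dvd_trans ?_ (Finset.dvd_prod_of_mem _ (Finset.mem_univ p))
    rw [if_pos h]

private theorem bsum_inj {P : Finset ℕ} {n : ℕ} (hP : ∀ p ∈ P, p.Prime) (B B' : Cfg P n)
    (h : ∀ i, rr B i = rr B' i) : B = B' := by
  funext p
  ext i
  have h1 := bsum_dvd_rr hP B i p
  have h2 := bsum_dvd_rr hP B' i p
  rw [h i] at h1
  exact h1.symm.trans h2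

private theorem bsum_cop {P : Finset ℕ} (hP : ∀ p ∈ P, p.Prime) (c : ↥P → Prop) [DecidablePred c]
    (s : Finset ↥P) (p : ↥P) (hp : p ∉ s) :
    Nat.Coprime (p : ℕ) (∏ q ∈ s, if c q then (q : ℕ) else 1) := by
  refine Nat.Coprime.prod_right fun q hq => ?_
  split_ifs
  · refine (Nat.coprime_primes (hP p p.2) (hP q q.2)).2 ?_
    intro h
    apply hp
    have : p = q := Subtype.ext h
    rw [this]; exact hq
  · exact Nat.coprime_one_right _

private theorem bsum_sqf {P : Finset ℕ} (hP : ∀ p ∈ P, p.Prime) (c : ↥P → Prop) [DecidablePred c]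
    (s : Finset ↥P) : Squarefree (∏ q ∈ s, if c q then (q : ℕ) else 1) := by
  classical
  induction s using Finset.induction_on with
  | empty => simp
  | insert p s hp ih =>
    rw [Finset.prod_insert hp]
    split_ifs with h
    · rw [Nat.squarefree_mul (bsum_cop hP c s p hp)]
      exact ⟨(Nat.Prime.prime (hP p p.2)).squarefree, ih⟩
    · rw [one_mul]; exact ih

private theorem bsum_tot {P : Finset ℕ} (hP : ∀ p ∈ P, p.Prime) (c : ↥P → Prop) [DecidablePred c]
    (s : Finset ↥P) : (((∏ q ∈ s, if c q then (q : ℕ) else 1).totient : ℕ) : ℝ) =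
      ∏ q ∈ s, if c q then ((q : ℕ) : ℝ) - 1 else 1 := by
  classical
  induction s using Finset.induction_on with
  | empty => simp
  | insert p s hp ih =>
    rw [Finset.prod_insert hp, Finset.prod_insert hp]
    split_ifs with h
    · rw [Nat.totient_mul (bsum_cop hP c s p hp), Nat.totient_prime (hP p p.2), Nat.cast_mul, ih,
        Nat.cast_sub (hP p p.2).one_le, Nat.cast_one]
    · rw [one_mul, one_mul, ih]

private theorem bsum_rr_mem {W : ℕ} {n : ℕ} {Y : ℝ} (B : Cfg (PP W Y) n)
    (i : Fin (n + 1)) {y : ℝ} (hy : (rr B i : ℝ) ≤ y) : rr B i ∈ SF W y := by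
  have hP : ∀ p ∈ PP W Y, p.Prime ∧ ¬ p ∣ W := by
    intro p hp
    unfold PP at hp
    rw [Finset.mem_filter] at hp
    exact hp.2
  have hsq : Squarefree (rr B i) := by
    unfold rr
    exact bsum_sqf (fun p hp => (hP p hp).1) _ _
  have hpos : 0 < rr B i := Nat.pos_of_ne_zero hsq.ne_zero
  unfold SF
  rw [Finset.mem_filter, Finset.mem_Icc]
  refine ⟨⟨hpos, ?_⟩, hsq, ?_⟩
  · exact Nat.le_floor hy
  · unfold rr
    refine Nat.Coprime.prod_left fun q _ => ?_
    split_ifs
    · exact (Nat.Prime.coprime_iff_not_dvd (hP q q.2).1).2 (hP q q.2).2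
    · exact Nat.coprime_one_left _

private theorem bsum_sprod {P : Finset ℕ} {n : ℕ} (hP : ∀ p ∈ P, p.Prime) (B : Cfg P n) :
    sprod (fun p => 1 / ((p : ℝ) - 1)) B = ∏ i : Fin (n + 1), (1 / ((rr B i).totient : ℝ)) := by
  have h1 : ∀ i : Fin (n + 1), (1 / ((rr B i).totient : ℝ)) =
      ∏ p : ↥P, if B p = some i then 1 / (((p : ℕ) : ℝ) - 1) else 1 := by
    intro i
    unfold rr
    rw [bsum_tot hP, one_div, ← Finset.prod_inv_distrib]
    refine Finset.prod_congr rfl fun p _ => ?_
    split_ifs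
    · rw [one_div]
    · simp
  rw [Finset.prod_congr rfl fun i _ => h1 i, Finset.prod_comm]
  unfold sprod
  refine Finset.prod_congr rfl fun p _ => ?_
  rcases hB : B p with _ | j
  · simp
  · simp [Finset.prod_ite_eq]

theorem BSUM : S_BSUM := by
  classical
  intro W n Y V α hW hα k s R0 hs hs0
  have hP : ∀ p ∈ PP W Y, p.Prime := by
    intro p hp
    unfold PP at hp
    rw [Finset.mem_filter] at hp
    exact hp.2.1
  -- the one-variable functions
  set f : Fin (n + 1) → ℕ → ℝ := Fin.cases (fun r => s r / (r.totient : ℝ))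
    (fun l a => if l = k then 1 else GG α V a ^ 2 / (a.totient : ℝ)) with hf
  set t : Fin (n + 1) → Finset ℕ := Fin.cases (SF W R0) (fun l => if l = k then {1} else SF W V) with ht
  have hf0 : ∀ r, f 0 r = s r / (r.totient : ℝ) := fun r => rfl
  have hfs : ∀ l a, f (Fin.succ l) a = if l = k then 1 else GG α V a ^ 2 / (a.totient : ℝ) :=
    fun l a => rfl
  have ht0 : t 0 = SF W R0 := rfl
  have hts : ∀ l, t (Fin.succ l) = if l = k then {1} else SF W V := fun l => rfl
  have hfnn : ∀ i a, 0 ≤ f i a := by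
    intro i a
    refine Fin.cases ?_ (fun l => ?_) i
    · rw [hf0]; exact div_nonneg (hs a) (Nat.cast_nonneg _)
    · rw [hfs]
      split_ifs
      · exact zero_le_one
      · exact div_nonneg (sq_nonneg _) (Nat.cast_nonneg _)
  have hrhs : (∑ r ∈ SF W R0, s r / (r.totient : ℝ)) *
      (∑ a ∈ SF W V, GG α V a ^ 2 / (a.totient : ℝ)) ^ (n - 1) =
      ∑ F ∈ Fintype.piFinset t, ∏ i, f i (F i) := by
    rw [← Finset.prod_univ_sum, Fin.prod_univ_succ]
    congr 1
    have h1 : ∀ l : Fin n, (∑ a ∈ t (Fin.succ l), f (Fin.succ l) a) =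
        if l = k then 1 else ∑ a ∈ SF W V, GG α V a ^ 2 / (a.totient : ℝ) := by
      intro l
      rw [hts]
      by_cases h : l = k
      · rw [if_pos h, if_pos h, Finset.sum_singleton, hfs, if_pos h]
      · rw [if_neg h, if_neg h]
        refine Finset.sum_congr rfl fun a _ => ?_
        rw [hfs, if_neg h]
    rw [Finset.prod_congr rfl fun l _ => h1 l, ← Finset.mul_prod_erase univ _ (Finset.mem_univ k),
      if_pos rfl, one_mul]
    rw [Finset.prod_congr rfl (g := fun _ => ∑ a ∈ SF W V, GG α V a ^ 2 / (a.totient : ℝ))]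
    · rw [Finset.prod_const, Finset.card_erase_of_mem (Finset.mem_univ k), Finset.card_univ,
        Fintype.card_fin]
    · intro l hl
      rw [if_neg (Finset.ne_of_mem_erase hl)]
  rw [hrhs]
  -- the terms
  have hterm : ∀ B : Cfg (PP W Y) n, Avoid k.succ B →
      (∏ l ∈ univ.erase k, GG α V (rr B l.succ)) ^ 2 * s (rr B 0) *
        sprod (fun p => 1 / ((p : ℝ) - 1)) B = ∏ i, f i (rr B i) := by
    intro B hB
    have hk : rr B k.succ = 1 := by
      unfold rr
      refine Finset.prod_eq_one fun p _ => ?_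
      rw [if_neg (hB p)]
    rw [bsum_sprod hP, Fin.prod_univ_succ, Fin.prod_univ_succ (fun i => f i (rr B i)), hf0]
    rw [← Finset.mul_prod_erase univ (fun l : Fin n => 1 / ((rr B l.succ).totient : ℝ))
      (Finset.mem_univ k), ← Finset.mul_prod_erase univ (fun l : Fin n => f l.succ (rr B l.succ))
      (Finset.mem_univ k), hk, hfs, if_pos rfl]
    have h2 : ∏ l ∈ univ.erase k, f l.succ (rr B l.succ) =
        (∏ l ∈ univ.erase k, GG α V (rr B l.succ)) ^ 2 *
          ∏ l ∈ univ.erase k, (1 / ((rr B l.succ).totient : ℝ)) := by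
      rw [← Finset.prod_pow, ← Finset.prod_mul_distrib]
      refine Finset.prod_congr rfl fun l hl => ?_
      rw [hfs, if_neg (Finset.ne_of_mem_erase hl)]
      ring
    rw [h2]
    simp only [Nat.totient_one, Nat.cast_one]
    ring
  rw [Finset.sum_congr rfl fun B hB => hterm B (Finset.mem_filter.1 hB).2]
  -- drop the zero terms
  have hzero : ∀ B : Cfg (PP W Y) n, Avoid k.succ B → ∏ i, f i (rr B i) ≠ 0 →
      (fun i => rr B i) ∈ Fintype.piFinset t := by
    intro B hB hne
    rw [Fintype.mem_piFinset]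
    rw [Finset.prod_ne_zero_iff] at hne
    intro i
    have hi := hne i (Finset.mem_univ i)
    revert hi
    refine Fin.cases ?_ (fun l => ?_) i
    · intro hi
      rw [hf0] at hi
      rw [ht0]
      apply bsum_rr_mem
      by_contra hcon
      rw [not_le] at hcon
      apply hi
      rw [hs0 _ hcon, zero_div]
    · intro hi
      rw [hfs] at hi
      rw [hts]
      by_cases h : l = k
      · rw [if_pos h, Finset.mem_singleton, h]
        unfold rr
        refine Finset.prod_eq_one fun p _ => ?_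
        rw [if_neg (hB p)]
      · rw [if_neg h] at hi ⊢
        apply bsum_rr_mem
        by_contra hcon
        apply hi
        unfold GG
        rw [if_neg hcon]
        simp
  rw [← Finset.sum_filter_ne_zero]
  have hinj : Set.InjOn (fun (B : Cfg (PP W Y) n) => (fun i => rr B i))
      (((univ.filter (fun B : Cfg (PP W Y) n => Avoid k.succ B)).filter
        (fun B => ∏ i, f i (rr B i) ≠ 0) : Finset (Cfg (PP W Y) n)) : Set (Cfg (PP W Y) n)) := by
    intro B _ B' _ h
    exact bsum_inj hP B B' fun i => congrFun h i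
  rw [← Finset.sum_image (f := fun F : Fin (n + 1) → ℕ => ∏ i, f i (F i)) hinj]
  refine Finset.sum_le_sum_of_subset_of_nonneg ?_ ?_
  · intro F hF
    rw [Finset.mem_image] at hF
    obtain ⟨B, hB, rfl⟩ := hF
    rw [Finset.mem_filter, Finset.mem_filter] at hB
    exact hzero B hB.1.2 hB.2
  · intro F _ _
    exact Finset.prod_nonneg fun i _ => hfnn i _

end MTA
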