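import Pool.Agent.H20.MT.Stmts

/-! Project MTA: pointwise bound for the sieve sum. -/

set_option autoImplicit false

namespace MTA
open Finset

private theorem fbd_hh_ne {n : ℕ} (c : Fin n → ℕ) (k : Fin (n + 1)) (t : ℕ) (ht : 1 ≤ t) :
    hh c k t ≠ 0 := by
  unfold hh
  refine Fin.cases ?_ (fun i => ?_) k
  · simp only [Fin.cases_zero]; omega
  · simp only [Fin.cases_succ]; omega

open Classical in
private theorem fbd_card {P : Finset ℕ} (hP : ∀ p ∈ P, p.Prime) {n : ℕ} (c : Fin n → ℕ) (t : ℕ)
    (ht : 1 ≤ t) : (univ.filter (fun D : Cfg P n => Dv c D t)).card ≤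
      ∏ k : Fin (n + 1), 2 ^ (hh c k t).primeFactors.card := by
  have h1 : ∏ k : Fin (n + 1), 2 ^ (hh c k t).primeFactors.card =
      (Fintype.piFinset fun k : Fin (n + 1) => (hh c k t).primeFactors.powerset).card := by
    rw [Fintype.card_piFinset]
    refine Finset.prod_congr rfl fun k _ => ?_
    rw [Finset.card_powerset]
  rw [h1]
  refine Finset.card_le_card_of_injOn
    (fun D k => (univ.filter (fun p : ↥P => D p = some k)).image (fun p : ↥P => (p : ℕ))) ?_ ?_
  · intro D hD
    rw [Finset.mem_coe, Finset.mem_filter] at hD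
    rw [Finset.mem_coe, Fintype.mem_piFinset]
    intro k
    rw [Finset.mem_powerset]
    intro q hq
    rw [Finset.mem_image] at hq
    obtain ⟨p, hp, rfl⟩ := hq
    rw [Finset.mem_filter] at hp
    rw [Nat.mem_primeFactors]
    exact ⟨hP p p.2, hD.2 p k hp.2, fbd_hh_ne c k t ht⟩
  · intro D _ D' _ h
    funext p
    ext k
    have h2 := congrFun h k
    simp only at h2
    have key : ∀ E : Cfg P n, E p = some k ↔
        (p : ℕ) ∈ (univ.filter (fun p : ↥P => E p = some k)).image (fun p : ↥P => (p : ℕ)) := by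
      intro E
      rw [Finset.mem_image]
      constructor
      · intro h3
        exact ⟨p, Finset.mem_filter.2 ⟨Finset.mem_univ _, h3⟩, rfl⟩
      · rintro ⟨q, hq, hqp⟩
        have : q = p := Subtype.ext hqp
        rw [← this]
        exact (Finset.mem_filter.1 hq).2
    exact (key D).trans (by rw [h2]; exact (key D').symm)

theorem FBD (_h1 : S_EXC) : S_FBD := by
  classical
  intro n w0 c W b _ Y B l t ht hB hl
  have hP : ∀ p ∈ PP W Y, p.Prime := by
    intro p hp
    unfold PP at hp
    rw [Finset.mem_filter] at hp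
    exact hp.2.1
  have h2 := fbd_card hP c t ht (n := n) (P := PP W Y)
  unfold ff
  calc |∑ D : Cfg (PP W Y) n, if Dv c D t then l D else 0|
      ≤ ∑ D : Cfg (PP W Y) n, |if Dv c D t then l D else 0| := Finset.abs_sum_le_sum_abs _ _
    _ ≤ ∑ D : Cfg (PP W Y) n, if Dv c D t then B else 0 := by
        refine Finset.sum_le_sum fun D _ => ?_
        split_ifs
        · exact hl D
        · simp
    _ = ((univ.filter (fun D : Cfg (PP W Y) n => Dv c D t)).card : ℝ) * B := by
        rw [← Finset.sum_filter, Finset.sum_const, nsmul_eq_mul]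
    _ ≤ ((∏ k : Fin (n + 1), 2 ^ (hh c k t).primeFactors.card : ℕ) : ℝ) * B := by
        refine mul_le_mul_of_nonneg_right ?_ hB
        exact_mod_cast h2
    _ = B * ∏ k : Fin (n + 1), (2 : ℝ) ^ (hh c k t).primeFactors.card := by
        rw [mul_comm]
        congr 1
        push_cast
        rfl

end MTA
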