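import Pool.Agent.H20.MT.Stmts

/-! Project MTA: lower bound for the prime model. -/

set_option autoImplicit false

namespace MTA
open Finset

private theorem low_sprod_nonneg {P : Finset ℕ} {n : ℕ} (f : ℕ → ℝ) (hf : ∀ p ∈ P, 0 ≤ f p)
    (D : Cfg P n) : 0 ≤ sprod f D := by
  unfold sprod
  refine Finset.prod_nonneg fun p _ => ?_
  split_ifs
  · exact hf p p.2
  · exact zero_le_one

private theorem low_sprod_mul {P : Finset ℕ} {n : ℕ} (f g : ℕ → ℝ) (D : Cfg P n) :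
    sprod (fun p => f p * g p ^ 2) D = sprod f D * (sprod g D) ^ 2 := by
  unfold sprod
  rw [← Finset.prod_pow, ← Finset.prod_mul_distrib]
  refine Finset.prod_congr rfl fun p _ => ?_
  split_ifs <;> simp

private theorem low_GG_nonneg {α V : ℝ} (hα : 0 ≤ α) (a : ℕ) : 0 ≤ GG α V a := by
  unfold GG
  split_ifs
  · have : 0 ≤ Real.log (a : ℝ) := Real.log_natCast_nonneg a
    positivity
  · exact le_rfl

theorem LOW (h1 : S_QK) (h2 : S_CKL) (h3 : S_YKL) (h4 : S_WSUM) (h5 : S_MONO) : S_LOW := by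
  intro n hn
  obtain ⟨w1, hw1⟩ := h2 n
  obtain ⟨w2, hw2⟩ := h4 n hn
  refine ⟨max (max w1 w2) (n + 2), ?_⟩
  intro W hW hsm Y R0 R V α hα hV hVR hVY hR0 hR0Y hA k
  have hsm1 : ∀ p : ℕ, p.Prime → p ≤ w2 → p ∣ W := fun p hp hl =>
    hsm p hp (le_trans hl (le_trans (le_max_right _ _) (le_max_left _ _)))
  have hP : ∀ p ∈ PP W Y, p.Prime ∧ w1 < p ∧ n + 2 < p := by
    intro p hp
    unfold PP at hp
    rw [Finset.mem_filter] at hp
    obtain ⟨_, hp1, hp2⟩ := hp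
    refine ⟨hp1, ?_, ?_⟩
    · by_contra hcon
      exact hp2 (hsm p hp1 (le_trans (not_lt.1 hcon) (le_trans (le_max_left _ _) (le_max_left _ _))))
    · by_contra hcon
      exact hp2 (hsm p hp1 (le_trans (not_lt.1 hcon) (le_max_right _ _)))
  have hQK := h1 (PP W Y) n k.succ (fun p hp => ⟨(hP p hp).1, (hP p hp).2.2.le⟩)
    (yv R0 R V α : Cfg (PP W Y) n → ℝ)
  have hmono := h5 (PP W Y) n (fun p hp => (hP p hp).1) R0 R V α hα
  have hWS := hw2 W hW hsm1 Y R0 R V α hα hV hVR hVY hR0 hR0Y hA k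
  have hfnn : ∀ p ∈ PP W Y, (0 : ℝ) ≤ 1 / ((p : ℝ) - 1) * (1 - n / ((p : ℝ) - 1)) := by
    intro p hp
    have h := (hP p hp).2.2
    have h' : ((n + 2 : ℕ) : ℝ) < (p : ℝ) := by exact_mod_cast h
    push_cast at h'
    have hn0 : (0 : ℝ) ≤ n := Nat.cast_nonneg n
    have hp1 : 0 < (p : ℝ) - 1 := by linarith
    have : (n : ℝ) / ((p : ℝ) - 1) ≤ 1 := by
      rw [div_le_one hp1]; linarith
    have h6 : 0 ≤ 1 - (n : ℝ) / ((p : ℝ) - 1) := by linarith
    positivity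
  refine le_trans ?_ hQK
  have step : ∀ B : Cfg (PP W Y) n, Avoid k.succ B ∧ (rr B 0 : ℝ) ≤ R0 ∧
        (∏ l ∈ univ.erase k, (rr B l.succ : ℝ)) * V ≤ R →
      9 / 10 * (A1s W V α) ^ 2 * ((∏ l ∈ univ.erase k, GG α V (rr B l.succ)) ^ 2 *
        sprod (fun p => 1 / ((p : ℝ) - 1) * (1 - n / ((p : ℝ) - 1)) * (1 - 1 / (p : ℝ)) ^ 2) B) ≤
      (ltrans (mK k.succ) (yv R0 R V α) B) ^ 2 *
        sprod (fun p => 1 / ((p : ℝ) - 1) * (1 - n / ((p : ℝ) - 1))) B := by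
    rintro B ⟨b1, b2, b3⟩
    have c1 := hw1 (PP W Y) (fun p hp => ⟨(hP p hp).1, (hP p hp).2.1⟩) k.succ
      (yv R0 R V α : Cfg (PP W Y) n → ℝ) (fun A => (hmono.1 A).1) hmono.2 B b1
    have c2 := h3 W n Y R0 R V α hW hα hV hVY k B b1 b2 b3
    have c3 : 0 ≤ (∏ l ∈ univ.erase k, GG α V (rr B l.succ)) * A1s W V α *
        sprod (fun p => 1 - 1 / (p : ℝ)) B := by
      refine mul_nonneg (mul_nonneg (Finset.prod_nonneg fun l _ => low_GG_nonneg hα _) ?_) ?_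
      · unfold A1s
        exact Finset.sum_nonneg fun a _ => div_nonneg (low_GG_nonneg hα _) (Nat.cast_nonneg a)
      · apply low_sprod_nonneg
        intro p hp
        have h := (hP p hp).1.two_le
        have h' : (2 : ℝ) ≤ (p : ℝ) := by exact_mod_cast h
        have : 1 / (p : ℝ) ≤ 1 := by
          rw [div_le_one (by linarith)]; linarith
        linarith
    have c4 := pow_le_pow_left₀ c3 c2 2
    have c5 : 0 ≤ sprod (fun p => 1 / ((p : ℝ) - 1) * (1 - n / ((p : ℝ) - 1))) B :=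
      low_sprod_nonneg _ hfnn B
    have c6 := low_sprod_mul (P := PP W Y) (n := n)
      (fun p => 1 / ((p : ℝ) - 1) * (1 - n / ((p : ℝ) - 1))) (fun p => 1 - 1 / (p : ℝ)) B
    rw [c6]
    calc 9 / 10 * (A1s W V α) ^ 2 * ((∏ l ∈ univ.erase k, GG α V (rr B l.succ)) ^ 2 *
        (sprod (fun p => 1 / ((p : ℝ) - 1) * (1 - n / ((p : ℝ) - 1))) B *
          (sprod (fun p => 1 - 1 / (p : ℝ)) B) ^ 2))
        = 9 / 10 * ((∏ l ∈ univ.erase k, GG α V (rr B l.succ)) * A1s W V α *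
            sprod (fun p => 1 - 1 / (p : ℝ)) B) ^ 2 *
            sprod (fun p => 1 / ((p : ℝ) - 1) * (1 - n / ((p : ℝ) - 1))) B := by ring
      _ ≤ 9 / 10 * (ltrans (mY k.succ) (yv R0 R V α) B) ^ 2 *
            sprod (fun p => 1 / ((p : ℝ) - 1) * (1 - n / ((p : ℝ) - 1))) B := by
          refine mul_le_mul_of_nonneg_right ?_ c5
          exact mul_le_mul_of_nonneg_left c4 (by norm_num)
      _ ≤ _ := mul_le_mul_of_nonneg_right c1 c5
  have hsub : (univ.filter (fun B : Cfg (PP W Y) n => Avoid k.succ B ∧ (rr B 0 : ℝ) ≤ R0 ∧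
        (∏ l ∈ univ.erase k, (rr B l.succ : ℝ)) * V ≤ R)) ⊆
      univ.filter (fun B : Cfg (PP W Y) n => Avoid k.succ B) := by
    intro B hB
    rw [Finset.mem_filter] at hB ⊢
    exact ⟨hB.1, hB.2.1⟩
  have hsum : 9 / 10 * (A1s W V α) ^ 2 *
      (∑ B : Cfg (PP W Y) n with Avoid k.succ B ∧ (rr B 0 : ℝ) ≤ R0 ∧
        (∏ l ∈ univ.erase k, (rr B l.succ : ℝ)) * V ≤ R,
      (∏ l ∈ univ.erase k, GG α V (rr B l.succ)) ^ 2 *
        sprod (fun p => 1 / ((p : ℝ) - 1) * (1 - n / ((p : ℝ) - 1)) * (1 - 1 / (p : ℝ)) ^ 2) B) ≤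
      ∑ B : Cfg (PP W Y) n with Avoid k.succ B, (ltrans (mK k.succ) (yv R0 R V α) B) ^ 2 *
        sprod (fun p => 1 / ((p : ℝ) - 1) * (1 - n / ((p : ℝ) - 1))) B := by
    rw [Finset.mul_sum]
    refine le_trans (Finset.sum_le_sum fun B hB => step B (Finset.mem_filter.1 hB).2) ?_
    refine Finset.sum_le_sum_of_subset_of_nonneg hsub ?_
    intro B _ _
    exact mul_nonneg (sq_nonneg _) (low_sprod_nonneg _ hfnn B)
  refine le_trans ?_ hsum
  have d1 : 0 ≤ Msum W R0 * (A2s W V α) ^ (n - 1) := by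
    refine mul_nonneg ?_ (pow_nonneg ?_ _)
    · unfold Msum
      exact Finset.sum_nonneg fun a _ => by positivity
    · unfold A2s
      exact Finset.sum_nonneg fun a _ => div_nonneg (sq_nonneg _) (Nat.cast_nonneg a)
  have d2 : 0 ≤ (A1s W V α) ^ 2 := sq_nonneg _
  calc 1 / 2 * Msum W R0 * (A2s W V α) ^ (n - 1) * (A1s W V α) ^ 2
      ≤ 9 / 10 * (A1s W V α) ^ 2 * (5 / 8 * Msum W R0 * (A2s W V α) ^ (n - 1)) := by
        nlinarith [mul_nonneg d1 d2]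
    _ ≤ _ := mul_le_mul_of_nonneg_left hWS (by positivity)

end MTA
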