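import Pool.Agent.H20.MT.Stmts

/-! Project MTA: repulsion, existence of good `x`. -/

set_option autoImplicit false

namespace MTA
open Finset

private theorem rep_zeta (h3 : S_ZUP) (σ : ℝ) (h1 : 1 < σ) (h2 : σ ≤ 2) :
    ‖riemannZeta (σ : ℂ)‖ ≤ 2 / (σ - 1) := by
  obtain ⟨C, _, h⟩ := h3
  have h4 := (h 1 (σ : ℂ) (by simpa using h1) (by simpa using h2)).2
  have h5 : Lj (1 : DirichletCharacter ℂ 1) 0 (σ : ℂ) = riemannZeta (σ : ℂ) := by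
    rw [← DirichletCharacter.LFunction_modOne_eq (χ := 1),
      DirichletCharacter.LFunction_eq_LSeries _ (by simpa using h1)]
    unfold Lj
    simp
  rw [h5] at h4
  simpa using h4

private theorem rep_small (K ξ : ℝ) (hK : 0 < K) (h0 : 0 < ξ)
    (h1 : ξ < 1 / (216 * K + 1) ^ 6) : K * ξ * (1 + Real.log (1 / ξ)) ^ 3 < 1 := by
  set y : ℝ := 1 / ξ with hy
  have hy0 : 0 < y := by positivity
  have hA : (216 * K + 1) ^ 6 < y := by
    rw [hy, lt_div_iff₀ h0]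
    rw [lt_div_iff₀ (by positivity)] at h1
    linarith
  set z : ℝ := y ^ ((6 : ℕ) : ℝ)⁻¹ with hz
  have hz6 : z ^ 6 = y := Real.rpow_inv_natCast_pow hy0.le (by norm_num)
  have hz0 : 0 < z := Real.rpow_pos_of_pos hy0 _
  have hzA : 216 * K + 1 < z := by
    by_contra hcon
    have := pow_le_pow_left₀ hz0.le (not_lt.1 hcon) 6
    rw [hz6] at this
    linarith
  have hz1 : 1 < z := by linarith
  have hlog : Real.log y = 6 * Real.log z := by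
    rw [← hz6, Real.log_pow]
    norm_num
  have hlz := Real.log_le_sub_one_of_pos hz0
  have hlz0 : 0 ≤ Real.log z := Real.log_nonneg hz1.le
  have hl : 1 + Real.log y ≤ 6 * z := by
    rw [hlog]; linarith
  have hl0 : 0 ≤ 1 + Real.log y := by rw [hlog]; linarith
  have hl3 := pow_le_pow_left₀ hl0 hl 3
  have hξ : ξ = 1 / z ^ 6 := by rw [hz6, hy]; simp
  have hz3 : z ≤ z ^ 3 := by nlinarith [mul_pos hz0 hz0]
  calc K * ξ * (1 + Real.log y) ^ 3 ≤ K * ξ * (6 * z) ^ 3 :=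
        mul_le_mul_of_nonneg_left hl3 (by positivity)
    _ = 216 * K / z ^ 3 := by rw [hξ]; field_simp; ring
    _ < 1 := by
        rw [div_lt_one (by positivity)]
        linarith

set_option maxHeartbeats 4000000 in
theorem REP (h1 : S_REPP) (h2 : S_LUP) (h3 : S_ZUP) (h4 : S_LIP) : S_REP := by
  intro B N
  obtain ⟨C1, hC1, hlup⟩ := h2 0
  obtain ⟨C2, hC2, hlip⟩ := h4
  set c : ℝ := 2 + 16 * B with hc
  have hB0 : (0 : ℝ) ≤ B := Nat.cast_nonneg B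
  have hc0 : 0 < c := by positivity
  set K : ℝ := 2 * (1 + C2 * c ^ 2) ^ 2 * (C1 * c) with hK
  have hK0 : 0 < K := by positivity
  set ε : ℝ := min 1 (1 / (216 * K + 1) ^ 6) with hε
  have hε0 : 0 < ε := by
    apply lt_min zero_lt_one
    positivity
  -- choice of `x0`
  set x0 : ℝ := max (max N 1) (Real.exp (ε⁻¹ ^ 8 + 1)) with hx0
  by_contra hcon
  push Not at hcon
  have hng0 := hcon x0 (le_trans (le_max_left _ _) (le_max_left _ _))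
  have hlogx0 : ε⁻¹ ^ 8 + 1 ≤ Real.log x0 := by
    rw [Real.le_log_iff_exp_le]
    · exact le_max_right _ _
    · exact lt_of_lt_of_le (Real.exp_pos _) (le_max_right _ _)
  have hl0 : 0 < Real.log x0 := by
    have : 0 < ε⁻¹ ^ 8 := by positivity
    linarith
  unfold Good at hng0
  push Not at hng0
  obtain ⟨r0, hr0, hr0B, χ0, p0, ne0, sq0, lt0⟩ := hng0
  set ξ : ℝ := ‖χ0.LFunction 1‖ with hξ
  have hξ0 : 0 < ξ := by
    rw [hξ, norm_pos_iff]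
    exact DirichletCharacter.LFunction_apply_one_ne_zero ne0
  have hpow : ∀ y : ℝ, 0 < y → (y ^ (-(1 / 8) : ℝ)) ^ 8 = y⁻¹ := by
    intro y hy
    rw [← Real.rpow_natCast, ← Real.rpow_mul hy.le]
    norm_num
    rw [Real.rpow_neg_one]
  have hξ8 : ξ ^ 8 < (Real.log x0)⁻¹ := by
    rw [← hpow _ hl0]
    exact pow_lt_pow_left₀ lt0 hξ0.le (by norm_num)
  have hlogξ : Real.log x0 < ξ⁻¹ ^ 8 := by
    rw [inv_pow]
    rw [lt_inv_comm₀ hl0 (by positivity)]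
    exact hξ8
  have hξε : ξ < ε := by
    have h5 : ε⁻¹ ^ 8 < ξ⁻¹ ^ 8 := by linarith
    have h6 : ε⁻¹ < ξ⁻¹ := lt_of_pow_lt_pow_left₀ 8 (by positivity) h5
    exact (inv_lt_inv₀ hε0 hξ0).1 h6
  have hξ1 : ξ < 1 := lt_of_lt_of_le hξε (min_le_left _ _)
  have hξ2 : ξ < 1 / (216 * K + 1) ^ 6 := lt_of_lt_of_le hξε (min_le_right _ _)
  -- the second point
  set x1 : ℝ := Real.exp (ξ⁻¹ ^ 8) with hx1
  have hlx1 : Real.log x1 = ξ⁻¹ ^ 8 := Real.log_exp _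
  have hx01 : x0 ≤ x1 := by
    have hx0pos : 0 < x0 := lt_of_lt_of_le (Real.exp_pos _) (le_max_right _ _)
    rw [← Real.exp_log hx0pos, hx1]
    exact Real.exp_le_exp.2 hlogξ.le
  have hng1 := hcon x1 (le_trans (le_trans (le_max_left _ _) (le_max_left _ _)) hx01)
  unfold Good at hng1
  push Not at hng1
  obtain ⟨r1, hr1, hr1B, χ1, p1, ne1, sq1, lt1⟩ := hng1
  have hval : (Real.log x1) ^ (-(1 / 8) : ℝ) = ξ := by
    rw [hlx1, ← Real.rpow_natCast, ← Real.rpow_mul (by positivity)]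
    norm_num
    rw [Real.rpow_neg_one, inv_inv]
  rw [hval] at lt1
  have hne : χ0.LFunction 1 ≠ χ1.LFunction 1 := by
    intro h
    rw [← h] at lt1
    exact lt_irrefl _ lt1
  obtain ⟨ψ, hψ, hprod⟩ := h1 r0 r1 χ0 χ1 sq0 sq1 p0 p1 hne
  -- sizes of the conductors
  have hr0' : (r0 : ℝ) ≤ (ξ⁻¹ ^ 8) ^ B := le_trans hr0B (pow_le_pow_left₀ hl0.le hlogξ.le B)
  have hr1' : (r1 : ℝ) ≤ (ξ⁻¹ ^ 8) ^ B := by rw [← hlx1]; exact hr1B
  have hr0pos : (0 : ℝ) < r0 := by exact_mod_cast Nat.pos_of_ne_zero hr0.out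
  have hr1pos : (0 : ℝ) < r1 := by exact_mod_cast Nat.pos_of_ne_zero hr1.out
  set ℓ : ℝ := 1 + Real.log (1 / ξ) with hℓ
  have hlogi : 0 ≤ Real.log (1 / ξ) := Real.log_nonneg (by
    rw [le_div_iff₀ hξ0]; linarith)
  have hℓ1 : 1 ≤ ℓ := by linarith
  have hlog3 : Real.log 3 ≤ 2 := by
    have := Real.log_le_sub_one_of_pos (show (0 : ℝ) < 3 by norm_num)
    linarith
  have hlogr : ∀ r : ℕ, (0 : ℝ) < r → (r : ℝ) ≤ (ξ⁻¹ ^ 8) ^ B →
      Real.log r ≤ 8 * B * Real.log (1 / ξ) := by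
    intro r hr hrB
    have h5 := Real.log_le_log hr hrB
    rw [Real.log_pow, Real.log_pow] at h5
    rw [one_div]
    push_cast at h5
    linarith
  have hL0 := hlogr r0 hr0pos hr0'
  have hL1 := hlogr r1 hr1pos hr1'
  have hBl : 0 ≤ (B : ℝ) * Real.log (1 / ξ) := mul_nonneg hB0 hlogi
  have hcl : 2 + 16 * B * Real.log (1 / ξ) ≤ c * ℓ := by
    rw [hc, hℓ]
    nlinarith
  have hLL0 : LL r0 0 ≤ c * ℓ := by
    unfold LL
    rw [abs_zero, zero_add, Real.log_mul hr0pos.ne' (by norm_num)]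
    linarith
  have hLL1 : LL r1 0 ≤ c * ℓ := by
    unfold LL
    rw [abs_zero, zero_add, Real.log_mul hr1pos.ne' (by norm_num)]
    linarith
  have hLL01 : LL (r0 * r1) 0 ≤ c * ℓ := by
    unfold LL
    rw [abs_zero, zero_add, Nat.cast_mul, Real.log_mul (by positivity) (by norm_num),
      Real.log_mul hr0pos.ne' hr1pos.ne']
    linarith
  have hLLnn : ∀ r : ℕ, (1 : ℝ) ≤ r → 0 ≤ LL r 0 := by
    intro r hr
    unfold LL
    apply Real.log_nonneg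
    rw [abs_zero, zero_add]
    linarith
  have hr0one : (1 : ℝ) ≤ r0 := by exact_mod_cast Nat.one_le_iff_ne_zero.2 hr0.out
  have hr1one : (1 : ℝ) ≤ r1 := by exact_mod_cast Nat.one_le_iff_ne_zero.2 hr1.out
  -- the point `1 + δ`
  set δ : ℝ := ξ / ℓ ^ 2 with hδ
  have hℓ0 : 0 < ℓ := by linarith
  have hδ0 : 0 < δ := by positivity
  have hδ1 : δ ≤ 1 := by
    rw [hδ, div_le_one (by positivity)]
    exact hξ1.le.trans (one_le_pow₀ hℓ1)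
  have hσ1 : 1 < 1 + δ := by linarith
  have hσ2 : 1 + δ ≤ 2 := by linarith
  have e0 := (hlip r0 χ0 ne0).2 (1 + δ) 0 hσ1 hσ2 (by simp)
  have e1 := (hlip r1 χ1 ne1).2 (1 + δ) 0 hσ1 hσ2 (by simp)
  haveI : NeZero (r0 * r1) := ⟨Nat.mul_ne_zero hr0.out hr1.out⟩
  have e2 := hlup (r0 * r1) ψ hψ ((1 + δ : ℝ) : ℂ) (by simpa using hδ0) (by simpa using hσ2)
  have e3 := rep_zeta h3 (1 + δ) hσ1 hσ2
  have e4 := hprod (1 + δ) hσ1
  simp only [Complex.ofReal_zero, zero_mul, add_zero, abs_zero, add_sub_cancel_left] at e0 e1 e3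
  simp only [Complex.ofReal_im, zero_add, pow_one] at e2
  have bnd : ∀ (r : ℕ), (1 : ℝ) ≤ r → LL r 0 ≤ c * ℓ → C2 * δ * (LL r 0) ^ 2 ≤ C2 * c ^ 2 * ξ := by
    intro r hr hL
    have h5 := pow_le_pow_left₀ (hLLnn r hr) hL 2
    calc C2 * δ * (LL r 0) ^ 2 ≤ C2 * δ * (c * ℓ) ^ 2 :=
          mul_le_mul_of_nonneg_left h5 (by positivity)
      _ = C2 * c ^ 2 * ξ := by rw [hδ]; field_simp
  have f0 : ‖Lj χ0 0 ((1 + δ : ℝ) : ℂ)‖ ≤ (1 + C2 * c ^ 2) * ξ := by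
    have h5 := norm_le_norm_add_norm_sub' (Lj χ0 0 ((1 + δ : ℝ) : ℂ)) (χ0.LFunction 1)
    have h6 := bnd r0 hr0one hLL0
    calc ‖Lj χ0 0 ((1 + δ : ℝ) : ℂ)‖ ≤ _ := h5
      _ ≤ ξ + C2 * c ^ 2 * ξ := add_le_add le_rfl (e0.trans h6)
      _ = _ := by ring
  have f1 : ‖Lj χ1 0 ((1 + δ : ℝ) : ℂ)‖ ≤ (1 + C2 * c ^ 2) * ξ := by
    have h5 := norm_le_norm_add_norm_sub' (Lj χ1 0 ((1 + δ : ℝ) : ℂ)) (χ1.LFunction 1)
    have h6 := bnd r1 hr1one hLL1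
    calc ‖Lj χ1 0 ((1 + δ : ℝ) : ℂ)‖ ≤ _ := h5
      _ ≤ ξ + C2 * c ^ 2 * ξ := add_le_add lt1.le (e1.trans h6)
      _ = _ := by ring
  have f2 : ‖Lj ψ 0 ((1 + δ : ℝ) : ℂ)‖ ≤ C1 * (c * ℓ) :=
    e2.trans (mul_le_mul_of_nonneg_left hLL01 hC1.le)
  have g1 : ‖riemannZeta ((1 + δ : ℝ) : ℂ)‖ * ‖Lj χ0 0 ((1 + δ : ℝ) : ℂ)‖ *
      ‖Lj χ1 0 ((1 + δ : ℝ) : ℂ)‖ * ‖Lj ψ 0 ((1 + δ : ℝ) : ℂ)‖ ≤
      2 / δ * ((1 + C2 * c ^ 2) * ξ) * ((1 + C2 * c ^ 2) * ξ) * (C1 * (c * ℓ)) := by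
    gcongr
  have g2 : 2 / δ * ((1 + C2 * c ^ 2) * ξ) * ((1 + C2 * c ^ 2) * ξ) * (C1 * (c * ℓ)) =
      K * ξ * ℓ ^ 3 := by
    rw [hδ, hK]
    field_simp
  have g3 := rep_small K ξ hK0 hξ0 hξ2
  rw [g2] at g1
  have g4 : (1 : ℝ) ≤ K * ξ * ℓ ^ 3 := e4.trans g1
  rw [hℓ] at g4
  linarith

end MTA
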