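import Pool.Agent.H20.MT.Stmts
import Pool.Agent.H20.MT.Rho

/-! Project MTA: Fourier representation of the test function of `SW`. -/

set_option autoImplicit false

namespace MTA
open Finset Filter Topology

private theorem swf_rho1 (v : ℝ) : HasDerivAt rho (deriv rho v) v :=
  (rho_contDiff.differentiable (by simp)).differentiableAt.hasDerivAt

private theorem swf_rho_deriv_contDiff : ContDiff ℝ (⊤ : ℕ∞) (deriv rho) := by
  have h : ContDiff ℝ ((⊤ : ℕ∞) + 1) rho := by
    simpa using rho_contDiff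
  exact (contDiff_succ_iff_deriv.1 h).2.2

private theorem swf_rho2 (v : ℝ) : HasDerivAt (deriv rho) (deriv (deriv rho) v) v :=
  (swf_rho_deriv_contDiff.differentiable (by simp)).differentiableAt.hasDerivAt

private theorem swf_bound : ∃ R : ℝ, 1 ≤ R ∧ ∀ v, |rho v| ≤ R ∧ |deriv rho v| ≤ R ∧
    |deriv (deriv rho) v| ≤ R := by
  have h2 : ContDiff ℝ (⊤ : ℕ∞) (deriv (deriv rho)) := by
    have h : ContDiff ℝ ((⊤ : ℕ∞) + 1) (deriv rho) := by
      simpa using swf_rho_deriv_contDiff
    exact (contDiff_succ_iff_deriv.1 h).2.2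
  obtain ⟨C1, hC1⟩ := swf_rho_deriv_contDiff.continuous.bounded_above_of_compact_support
    (rho_hasCompactSupport.deriv)
  obtain ⟨C2, hC2⟩ := h2.continuous.bounded_above_of_compact_support
    (rho_hasCompactSupport.deriv.deriv)
  refine ⟨max 1 (max C1 C2), le_max_left _ _, ?_⟩
  intro v
  refine ⟨?_, ?_, ?_⟩
  · rw [abs_of_nonneg (rho_nonneg v)]
    exact le_trans (rho_le_one v) (le_max_left _ _)
  · exact le_trans (hC1 v) (le_trans (le_max_left _ _) (le_max_right _ _))
  · exact le_trans (hC2 v) (le_trans (le_max_right _ _) (le_max_right _ _))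

/-- the exponential factor -/
private noncomputable def swf_E (k : ℕ) (lam σ w : ℝ) : ℝ :=
  Real.exp (σ * w) * ((1 + w / lam) ^ k)⁻¹

/-- its logarithmic derivative -/
private noncomputable def swf_g (k : ℕ) (lam σ w : ℝ) : ℝ :=
  σ - k * (1 / lam) / (1 + w / lam)

private theorem swf_E_deriv (k : ℕ) (lam σ w : ℝ) (hw : 0 < 1 + w / lam) :
    HasDerivAt (swf_E k lam σ) (swf_E k lam σ w * swf_g k lam σ w) w := by
  have h1 : HasDerivAt (fun w : ℝ => Real.exp (σ * w)) (Real.exp (σ * w) * (σ * 1)) w :=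
    ((hasDerivAt_id w).const_mul σ).exp
  have h2 : HasDerivAt (fun w : ℝ => 1 + w / lam) (1 / lam) w :=
    ((hasDerivAt_id w).div_const lam).const_add 1
  have h3 : HasDerivAt (fun w : ℝ => (1 + w / lam) ^ k)
      ((k : ℝ) * (1 + w / lam) ^ (k - 1) * (1 / lam)) w := h2.pow k
  have hne : (1 + w / lam) ^ k ≠ 0 := pow_ne_zero _ hw.ne'
  have h4 := h1.mul (h3.inv hne)
  refine h4.congr_deriv ?_
  simp only [Pi.inv_apply]
  unfold swf_E swf_g
  rcases Nat.eq_zero_or_pos k with rfl | hk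
  · simp
  · obtain ⟨j, rfl⟩ : ∃ j, k = j + 1 := ⟨k - 1, by omega⟩
    have hne' : (1 + w / lam) ≠ 0 := hw.ne'
    rw [Nat.add_sub_cancel]
    simp only [pow_succ]
    field_simp
    ring

private theorem swf_g_deriv (k : ℕ) (lam σ w : ℝ) (hw : 0 < 1 + w / lam) :
    HasDerivAt (swf_g k lam σ) (k * (1 / lam) ^ 2 / (1 + w / lam) ^ 2) w := by
  have h2 : HasDerivAt (fun w : ℝ => 1 + w / lam) (1 / lam) w :=
    ((hasDerivAt_id w).div_const lam).const_add 1
  have h3 := ((h2.inv hw.ne').const_mul ((k : ℝ) * (1 / lam))).const_sub σ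
  have h4 : (swf_g k lam σ) = fun w => σ - (k : ℝ) * (1 / lam) * (1 + w / lam)⁻¹ := by
    funext w
    unfold swf_g
    rw [div_eq_mul_inv]
  rw [h4]
  refine h3.congr_deriv ?_
  have hne' : (1 + w / lam) ≠ 0 := hw.ne'
  ring

private theorem swf_pos {lam w : ℝ} (hlam : 4 ≤ lam) (hw : |w| < 3) : 0 < 1 + w / lam := by
  have h1 := (abs_lt.1 hw).1
  have : -(3 / 4) ≤ w / lam := by
    rw [le_div_iff₀ (by linarith)]
    nlinarith
  linarith

private noncomputable def swf_Phi (k : ℕ) (lam σ w : ℝ) : ℂ :=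
  ((rho w * Real.exp (σ * w) / (1 + w / lam) ^ k : ℝ) : ℂ)

private theorem swf_Phi_eq (k : ℕ) (lam σ w : ℝ) :
    swf_Phi k lam σ w = ((rho w * swf_E k lam σ w : ℝ) : ℂ) := by
  unfold swf_Phi swf_E
  rw [div_eq_mul_inv, mul_assoc]

private theorem swf_Phi_zero (k : ℕ) (lam σ w : ℝ) (hw : 2 < |w|) :
    swf_Phi k lam σ =ᶠ[𝓝 w] fun _ => 0 := by
  have h : ∀ᶠ v in 𝓝 w, 2 < |v| := continuous_abs.continuousAt.eventually (lt_mem_nhds hw)
  filter_upwards [h] with v hv
  rw [swf_Phi_eq, rho_zero hv.le]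
  simp

private theorem swf_open {w : ℝ} (hw : |w| < 3) : ∀ᶠ v in 𝓝 w, |v| < 3 :=
  continuous_abs.continuousAt.eventually (gt_mem_nhds hw)

private theorem swf_d1 (k : ℕ) (lam σ w : ℝ) (hlam : 4 ≤ lam) (hw : |w| < 3) :
    HasDerivAt (swf_Phi k lam σ) ((deriv rho w * swf_E k lam σ w +
      rho w * (swf_E k lam σ w * swf_g k lam σ w) : ℝ) : ℂ) w := by
  have h1 := ((swf_rho1 w).mul (swf_E_deriv k lam σ w (swf_pos hlam hw))).ofReal_comp
  refine h1.congr_of_eventuallyEq (Eventually.of_forall fun v => ?_)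
  exact swf_Phi_eq k lam σ v

private theorem swf_d2 (k : ℕ) (lam σ w : ℝ) (hlam : 4 ≤ lam) (hw : |w| < 3) :
    deriv (deriv (swf_Phi k lam σ)) w = ((deriv (deriv rho) w * swf_E k lam σ w +
      2 * (deriv rho w * (swf_E k lam σ w * swf_g k lam σ w)) +
      rho w * (swf_E k lam σ w * swf_g k lam σ w * swf_g k lam σ w +
        swf_E k lam σ w * (k * (1 / lam) ^ 2 / (1 + w / lam) ^ 2)) : ℝ) : ℂ) := by
  have h0 : deriv (swf_Phi k lam σ) =ᶠ[𝓝 w] fun v => ((deriv rho v * swf_E k lam σ v +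
      rho v * (swf_E k lam σ v * swf_g k lam σ v) : ℝ) : ℂ) := by
    filter_upwards [swf_open hw] with v hv
    exact (swf_d1 k lam σ v hlam hv).deriv
  rw [h0.deriv_eq]
  have hE := swf_E_deriv k lam σ w (swf_pos hlam hw)
  have hg := swf_g_deriv k lam σ w (swf_pos hlam hw)
  have h1 := (((swf_rho2 w).mul hE).add ((swf_rho1 w).mul (hE.mul hg))).ofReal_comp
  have h2 := h1.deriv
  refine Eq.trans ?_ (h2.trans ?_)
  · rfl
  · congr 1
    simp only [Pi.mul_apply]
    ring

private theorem swf_contDiff (k : ℕ) (lam σ : ℝ) (hlam : 4 ≤ lam) :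
    ContDiff ℝ 2 (swf_Phi k lam σ) := by
  rw [contDiff_iff_contDiffAt]
  intro w
  by_cases hw : |w| < 3
  · have h1 : ContDiffAt ℝ 2 (fun w : ℝ => rho w * Real.exp (σ * w) / (1 + w / lam) ^ k) w := by
      refine ContDiffAt.div ?_ ?_ ?_
      · refine ContDiffAt.mul ?_ ?_
        · exact (rho_contDiff.of_le (WithTop.coe_le_coe.2 (le_top : (2 : ℕ∞) ≤ ⊤))).contDiffAt
        · exact (contDiffAt_const.mul contDiffAt_id).exp
      · exact (contDiffAt_const.add (contDiffAt_id.div_const lam)).pow k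
      · exact pow_ne_zero _ (swf_pos hlam hw).ne'
    exact Complex.ofRealCLM.contDiff.contDiffAt.comp w h1
  · exact contDiffAt_const.congr_of_eventuallyEq (swf_Phi_zero k lam σ w (by linarith))

private theorem swf_supp (k : ℕ) (lam σ : ℝ) : HasCompactSupport (swf_Phi k lam σ) := by
  refine HasCompactSupport.of_support_subset_isCompact (isCompact_Icc (a := (-2 : ℝ)) (b := 2)) ?_
  intro v hv
  rw [Function.mem_support] at hv
  by_contra h
  apply hv
  rw [swf_Phi_eq, rho_zero]
  · simp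
  · rw [Set.mem_Icc, not_and_or] at h
    rcases h with h | h
    · rw [not_le] at h
      rw [abs_of_neg (by linarith)]; linarith
    · rw [not_le] at h
      rw [abs_of_pos (by linarith)]; linarith

private theorem swf_Ebd (k : ℕ) (lam σ w : ℝ) (hlam : 4 ≤ lam) (h1 : 1 ≤ σ) (h2 : σ ≤ 2)
    (hw : |w| ≤ 2) : |swf_E k lam σ w| ≤ Real.exp 4 * 2 ^ k ∧ |swf_g k lam σ w| ≤ 2 + k ∧
      |((k : ℝ) * (1 / lam) ^ 2 / (1 + w / lam) ^ 2)| ≤ (k : ℝ) := by
  have hw' := abs_le.1 hw
  have hlam0 : 0 < lam := by linarith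
  have hk : (0 : ℝ) ≤ k := Nat.cast_nonneg k
  have ha : 1 / 2 ≤ 1 + w / lam := by
    have : -(1 / 2) ≤ w / lam := by
      rw [le_div_iff₀ hlam0]; nlinarith [hw'.1]
    linarith
  have ha0 : 0 < 1 + w / lam := by linarith
  have hb : 1 / lam ≤ 1 / 4 := one_div_le_one_div_of_le (by norm_num) hlam
  have hb0 : 0 < 1 / lam := by positivity
  refine ⟨?_, ?_, ?_⟩
  · unfold swf_E
    rw [abs_of_nonneg (by positivity)]
    refine mul_le_mul ?_ ?_ (by positivity) (by positivity)
    · apply Real.exp_le_exp.2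
      nlinarith [hw'.2]
    · rw [← inv_pow]
      refine pow_le_pow_left₀ (by positivity) ?_ k
      rw [inv_le_comm₀ ha0 (by norm_num)]
      linarith
  · unfold swf_g
    have h3 : 0 ≤ k * (1 / lam) / (1 + w / lam) := by positivity
    have h4 : k * (1 / lam) / (1 + w / lam) ≤ k := by
      rw [div_le_iff₀ ha0]
      refine mul_le_mul_of_nonneg_left ?_ hk
      linarith
    rw [abs_le]
    constructor <;> linarith
  · rw [abs_of_nonneg (by positivity), div_le_iff₀ (by positivity)]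
    refine mul_le_mul_of_nonneg_left ?_ hk
    refine pow_le_pow_left₀ hb0.le ?_ 2
    linarith

private theorem swf_int (F : ℝ → ℂ) (B : ℝ) (_hB : 0 ≤ B) (h1 : ∀ v, |v| ≤ 2 → ‖F v‖ ≤ B)
    (h2 : ∀ v, 2 < |v| → F v = 0) : ∫ v, ‖F v‖ ≤ 4 * B := by
  have h3 : ∫ v, ‖F v‖ ≤ ∫ v, (Set.Icc (-2 : ℝ) 2).indicator (fun _ => B) v := by
    refine MeasureTheory.integral_mono_of_nonneg (Eventually.of_forall fun v => norm_nonneg _) ?_
      (Eventually.of_forall fun v => ?_)
    · rw [MeasureTheory.integrable_indicator_iff measurableSet_Icc]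
      exact MeasureTheory.integrableOn_const (by simp) (by simp)
    · by_cases hv : |v| ≤ 2
      · have : v ∈ Set.Icc (-2 : ℝ) 2 := abs_le.1 hv
        simp only [Set.indicator_of_mem this]
        exact h1 v hv
      · have : v ∉ Set.Icc (-2 : ℝ) 2 := fun h => hv (abs_le.2 h)
        simp only [Set.indicator_of_notMem this]
        rw [h2 v (not_le.1 hv), norm_zero]
  refine h3.trans ?_
  rw [MeasureTheory.integral_indicator measurableSet_Icc, MeasureTheory.setIntegral_const]
  simp only [MeasureTheory.measureReal_def, Real.volume_Icc, smul_eq_mul]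
  rw [ENNReal.toReal_ofReal (by norm_num)]
  linarith

theorem SWF (hF : S_FOUR) : S_SWF := by
  intro k
  obtain ⟨R, hR1, hR⟩ := swf_bound
  set M : ℝ := Real.exp 4 * 2 ^ k with hM
  set G : ℝ := 2 + k with hG
  have hM0 : 0 < M := by positivity
  have hG0 : 0 < G := by positivity
  set B2 : ℝ := R * M + 2 * (R * (M * G)) + R * (M * G * G + M * k) with hB2
  have hR0 : 0 < R := by linarith
  have hB20 : 0 ≤ B2 := by positivity
  refine ⟨4 * (R * M) + 4 * B2 + 1, by positivity, ?_⟩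
  intro lam σ hlam h1 h2
  obtain ⟨g, g1, g2, g3⟩ := hF (swf_Phi k lam σ) (swf_contDiff k lam σ hlam) (swf_supp k lam σ)
  refine ⟨g, g1, ?_, fun w => g3 w⟩
  intro u
  refine (g2 u).trans ?_
  refine div_le_div_of_nonneg_right ?_ (by positivity)
  have i1 : ∫ v, ‖swf_Phi k lam σ v‖ ≤ 4 * (R * M) := by
    refine swf_int _ _ (by positivity) ?_ ?_
    · intro v hv
      rw [swf_Phi_eq, Complex.norm_real, Real.norm_eq_abs, abs_mul]
      exact mul_le_mul (hR v).1 (swf_Ebd k lam σ v hlam h1 h2 hv).1 (abs_nonneg _) hR0.le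
    · intro v hv
      exact (swf_Phi_zero k lam σ v hv).eq_of_nhds
  have i2 : ∫ v, ‖iteratedDeriv 2 (swf_Phi k lam σ) v‖ ≤ 4 * B2 := by
    have e1 : iteratedDeriv 2 (swf_Phi k lam σ) = deriv (deriv (swf_Phi k lam σ)) := by
      rw [iteratedDeriv_succ, iteratedDeriv_one]
    rw [e1]
    refine swf_int _ _ hB20 ?_ ?_
    · intro v hv
      rw [swf_d2 k lam σ v hlam (by linarith), Complex.norm_real, Real.norm_eq_abs]
      obtain ⟨b1, b2, b3⟩ := swf_Ebd k lam σ v hlam h1 h2 hv
      obtain ⟨r0, r1, r2⟩ := hR v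
      set E := swf_E k lam σ v
      set q := swf_g k lam σ v
      set q' := (k : ℝ) * (1 / lam) ^ 2 / (1 + v / lam) ^ 2
      have c1 : |E * q| ≤ M * G := by
        rw [abs_mul]; exact mul_le_mul b1 b2 (abs_nonneg _) hM0.le
      have c2 : |E * q * q| ≤ M * G * G := by
        rw [abs_mul]; exact mul_le_mul c1 b2 (abs_nonneg _) (by positivity)
      have c3 : |E * q'| ≤ M * k := by
        rw [abs_mul]; exact mul_le_mul b1 b3 (abs_nonneg _) hM0.le
      have d1 : |deriv (deriv rho) v * E| ≤ R * M := by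
        rw [abs_mul]; exact mul_le_mul r2 b1 (abs_nonneg _) hR0.le
      have d2 : |2 * (deriv rho v * (E * q))| ≤ 2 * (R * (M * G)) := by
        rw [abs_mul, abs_mul, abs_of_pos (by norm_num : (0 : ℝ) < 2)]
        exact mul_le_mul_of_nonneg_left (mul_le_mul r1 c1 (abs_nonneg _) hR0.le) (by norm_num)
      have d3 : |rho v * (E * q * q + E * q')| ≤ R * (M * G * G + M * k) := by
        rw [abs_mul]
        refine mul_le_mul r0 ?_ (abs_nonneg _) hR0.le
        exact (abs_add_le _ _).trans (add_le_add c2 c3)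
      calc |deriv (deriv rho) v * E + 2 * (deriv rho v * (E * q)) + rho v * (E * q * q + E * q')|
          ≤ |deriv (deriv rho) v * E + 2 * (deriv rho v * (E * q))| +
            |rho v * (E * q * q + E * q')| := abs_add_le _ _
        _ ≤ |deriv (deriv rho) v * E| + |2 * (deriv rho v * (E * q))| +
            |rho v * (E * q * q + E * q')| := by gcongr; exact abs_add_le _ _
        _ ≤ _ := by rw [hB2]; gcongr
    · intro v hv
      have z1 := swf_Phi_zero k lam σ v hv
      have z2 : deriv (swf_Phi k lam σ) =ᶠ[𝓝 v] fun _ => 0 := by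
        refine z1.deriv.trans ?_
        exact Eventually.of_forall fun x => by simp
      have z3 := z2.deriv_eq
      rw [z3]
      simp
  linarith

end MTA
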