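import Pool.Agent.H20.MT.Stmts
import Pool.Agent.H20.MT.Rho

/-! Project MTA: Chebyshev bounds for the prime sum. -/

set_option autoImplicit false

namespace MTA
open Finset

private theorem che_upper (c : ℕ) (x : ℝ) (h : 1 ≤ (c : ℝ) * x) : TH c x ≤ 13 * (c * x) := by
  have h1 : TH c x ≤ Chebyshev.theta ((⌊8 * c * x⌋₊ + 1 : ℕ) : ℝ) := by
    unfold TH
    rw [Chebyshev.theta_eq_sum_Icc, Nat.floor_natCast]
    calc ∑ p ∈ (Icc 2 (⌊8 * c * x⌋₊ + 1)).filter Nat.Prime,
          Real.log p * rho (Real.log (((p : ℝ) - 1) / (c * x)))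
        ≤ ∑ p ∈ (Icc 2 (⌊8 * c * x⌋₊ + 1)).filter Nat.Prime, Real.log p := by
          refine Finset.sum_le_sum fun p _ => ?_
          have h2 : 0 ≤ Real.log (p : ℝ) := Real.log_natCast_nonneg p
          calc Real.log (p : ℝ) * rho (Real.log (((p : ℝ) - 1) / (c * x)))
              ≤ Real.log p * 1 := mul_le_mul_of_nonneg_left (rho_le_one _) h2
            _ = Real.log p := mul_one _
      _ ≤ _ := by
          refine Finset.sum_le_sum_of_subset_of_nonneg ?_ ?_
          · intro p hp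
            rw [Finset.mem_filter, Finset.mem_Icc] at hp ⊢
            exact ⟨⟨by omega, hp.1.2⟩, hp.2⟩
          · intro p _ _
            exact Real.log_natCast_nonneg p
  have h2 := Chebyshev.theta_le_log4_mul_x (x := ((⌊8 * c * x⌋₊ + 1 : ℕ) : ℝ)) (Nat.cast_nonneg _)
  have h3 : ((⌊8 * c * x⌋₊ + 1 : ℕ) : ℝ) ≤ 8 * (c * x) + 1 := by
    push_cast
    have := Nat.floor_le (a := 8 * (c : ℝ) * x) (by nlinarith)
    linarith
  have h4 : Real.log 4 ≤ 1.4 := by
    have : Real.log 4 = 2 * Real.log 2 := by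
      rw [show (4 : ℝ) = 2 ^ 2 by norm_num, Real.log_pow]; norm_num
    rw [this]
    have := Real.log_two_lt_d9
    linarith
  have h5 : 0 ≤ Real.log 4 := Real.log_nonneg (by norm_num)
  calc TH c x ≤ _ := h1
    _ ≤ _ := h2
    _ ≤ Real.log 4 * (8 * (c * x) + 1) := mul_le_mul_of_nonneg_left h3 h5
    _ ≤ 1.4 * (8 * (c * x) + 1) := mul_le_mul_of_nonneg_right h4 (by linarith)
    _ ≤ 13 * (c * x) := by linarith

private theorem che_lower (c : ℕ) (x : ℝ) (h : 1 ≤ (c : ℝ) * x) :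
    Chebyshev.theta (5 / 2 * (c * x)) ≤ TH c x + Chebyshev.theta (2 / 5 * (c * x) + 1) := by
  set y : ℝ := c * x with hy
  have hy0 : 0 < y := by linarith
  have e1 : 8 * (c : ℝ) * x = 8 * y := by rw [hy]; ring
  have hlog : ∀ v : ℝ, 2 / 5 ≤ v → v ≤ 5 / 2 → |Real.log v| ≤ 1 := by
    intro v h1 h2
    have hv : 0 < v := by linarith
    have he : (5 / 2 : ℝ) ≤ Real.exp 1 := by
      have := Real.exp_one_gt_d9
      linarith
    rw [abs_le]
    constructor
    · rw [Real.le_log_iff_exp_le hv, Real.exp_neg]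
      refine le_trans ?_ h1
      rw [show (2 / 5 : ℝ) = (5 / 2)⁻¹ by norm_num]
      exact inv_anti₀ (by norm_num) he
    · rw [Real.log_le_iff_le_exp hv]
      exact le_trans h2 he
  have hterm : ∀ p ∈ (Icc 2 ⌊5 / 2 * y⌋₊).filter Nat.Prime,
      Real.log p ≤ Real.log p * rho (Real.log (((p : ℝ) - 1) / y)) +
        (if (p : ℝ) ≤ 2 / 5 * y + 1 then Real.log p else 0) := by
    intro p hp
    rw [Finset.mem_filter, Finset.mem_Icc] at hp
    have hl : 0 ≤ Real.log (p : ℝ) := Real.log_natCast_nonneg p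
    split_ifs with h1
    · have := mul_nonneg hl (rho_nonneg (Real.log (((p : ℝ) - 1) / y)))
      linarith
    · rw [not_le] at h1
      have h2 : (p : ℝ) ≤ 5 / 2 * y := (Nat.le_floor_iff (by positivity)).1 hp.1.2
      rw [rho_one (hlog _ ?_ ?_)]
      · simp
      · rw [le_div_iff₀ hy0]; linarith
      · rw [div_le_iff₀ hy0]; linarith
  have hA : Chebyshev.theta (5 / 2 * y) = ∑ p ∈ (Icc 2 ⌊5 / 2 * y⌋₊).filter Nat.Prime, Real.log p := by
    rw [Chebyshev.theta_eq_sum_Icc]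
    refine (Finset.sum_subset ?_ ?_).symm
    · intro p hp
      rw [Finset.mem_filter, Finset.mem_Icc] at hp ⊢
      exact ⟨⟨by omega, hp.1.2⟩, hp.2⟩
    · intro p hp hp'
      exfalso
      apply hp'
      rw [Finset.mem_filter, Finset.mem_Icc] at hp ⊢
      exact ⟨⟨hp.2.two_le, hp.1.2⟩, hp.2⟩
  rw [hA]
  refine le_trans (Finset.sum_le_sum hterm) ?_
  rw [Finset.sum_add_distrib]
  refine add_le_add ?_ ?_
  · unfold TH
    rw [e1]
    refine Finset.sum_le_sum_of_subset_of_nonneg ?_ ?_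
    · intro p hp
      rw [Finset.mem_filter, Finset.mem_Icc] at hp ⊢
      refine ⟨⟨hp.1.1, ?_⟩, hp.2⟩
      refine le_trans hp.1.2 (le_trans (Nat.floor_le_floor ?_) (Nat.le_succ _))
      linarith
    · intro p _ _
      exact mul_nonneg (Real.log_natCast_nonneg p) (rho_nonneg _)
  · rw [← Finset.sum_filter, Chebyshev.theta_eq_sum_Icc]
    refine Finset.sum_le_sum_of_subset_of_nonneg ?_ ?_
    · intro p hp
      rw [Finset.mem_filter, Finset.mem_filter, Finset.mem_Icc] at hp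
      rw [Finset.mem_filter, Finset.mem_Icc]
      exact ⟨⟨Nat.zero_le _, Nat.le_floor hp.2⟩, hp.1.2⟩
    · intro p _ _
      exact Real.log_natCast_nonneg p

theorem CHE : S_CHE := by
  refine ⟨1 / 2, 13, by norm_num, by norm_num, ?_⟩
  have hlog : ∀ᶠ z : ℝ in Filter.atTop, Real.log z ≤ 1 / 100 * Real.sqrt z := by
    have h := (isLittleO_log_rpow_atTop (r := 1 / 2) (by norm_num)).bound
      (show (0 : ℝ) < 1 / 100 by norm_num)
    filter_upwards [h, Filter.eventually_ge_atTop (1 : ℝ)] with z hz hz1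
    rw [Real.norm_eq_abs, Real.norm_eq_abs, abs_of_nonneg (Real.log_nonneg hz1),
      abs_of_nonneg (Real.rpow_nonneg (by linarith) _), ← Real.sqrt_eq_rpow] at hz
    exact hz
  obtain ⟨z0, hz0⟩ := Filter.eventually_atTop.1 hlog
  intro c hc
  refine ⟨max (max z0 100) 1, ?_⟩
  intro x hx
  have hx1 : (1 : ℝ) ≤ x := le_trans (le_max_right _ _) hx
  have hx2 : z0 ≤ x := le_trans (le_trans (le_max_left _ _) (le_max_left _ _)) hx
  have hx3 : 100 ≤ x := le_trans (le_trans (le_max_right _ _) (le_max_left _ _)) hx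
  have hc' : (1 : ℝ) ≤ c := by exact_mod_cast hc
  have hxy : x ≤ c * x := by nlinarith
  have hy1 : (1 : ℝ) ≤ c * x := by linarith
  refine ⟨?_, che_upper c x hy1⟩
  have h1 := che_lower c x hy1
  set y : ℝ := c * x with hy
  have h2 := Chebyshev.theta_ge' (x := 5 / 2 * y) (by linarith)
  have h3 := Chebyshev.theta_le_log4_mul_x (x := 2 / 5 * y + 1) (by linarith)
  have h4 : Real.log 4 ≤ 1.387 := by
    have : Real.log 4 = 2 * Real.log 2 := by
      rw [show (4 : ℝ) = 2 ^ 2 by norm_num, Real.log_pow]; norm_num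
    rw [this]
    have := Real.log_two_lt_d9
    linarith
  have h5 : 0.69 ≤ Real.log 2 := by
    have := Real.log_two_gt_d9
    linarith
  have h6 := hz0 (5 / 2 * y) (by linarith)
  have h7 := hz0 (5 / 2 * y + 2) (by linarith)
  have h8 : Real.sqrt (5 / 2 * y + 2) ≤ 5 / 2 * y + 2 := by
    rw [Real.sqrt_le_left (by linarith)]
    nlinarith
  have h9 : Real.sqrt (5 / 2 * y) * Real.sqrt (5 / 2 * y) = 5 / 2 * y :=
    Real.mul_self_sqrt (by linarith)
  have h10 : 0 ≤ Real.sqrt (5 / 2 * y) := Real.sqrt_nonneg _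
  have h11 : 2 * Real.sqrt (5 / 2 * y) * Real.log (5 / 2 * y) ≤ 1 / 50 * (5 / 2 * y) := by
    calc 2 * Real.sqrt (5 / 2 * y) * Real.log (5 / 2 * y)
        ≤ 2 * Real.sqrt (5 / 2 * y) * (1 / 100 * Real.sqrt (5 / 2 * y)) :=
          mul_le_mul_of_nonneg_left h6 (by positivity)
      _ = 1 / 50 * (Real.sqrt (5 / 2 * y) * Real.sqrt (5 / 2 * y)) := by ring
      _ = _ := by rw [h9]
  have h12 : Real.log 4 * (2 / 5 * y + 1) ≤ 1.387 * (2 / 5 * y + 1) :=
    mul_le_mul_of_nonneg_right h4 (by linarith)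
  have h13 : (5 / 2 * y - 1) * 0.69 ≤ (5 / 2 * y - 1) * Real.log 2 :=
    mul_le_mul_of_nonneg_left h5 (by linarith)
  linarith

end MTA
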